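import Pool.Agent.Helper60_SEP.Bas
import Pool.Agent.Helper80_RS.Glue

/-!
# MP_ff6f12_co, squad SEP: module LOC (helper10)
-/

set_option autoImplicit false

open SimpleGraph

namespace Pool.Agent.SEP60.H10

open Pool.Agent.RS80 Pool.Agent.RS81 Pool.Agent.SEP60

/-- A set `A` which is left only through at most two vertices, on opposite sides, together with
these vertices is everything. -/
theorem cut {V : Type} {B : SimpleGraph V} (hB : TwoConn B) (ho : NoOpp B) (κ : V → Bool)
    (hκ : ∀ x y, B.Adj x y → κ x ≠ κ y) (X Y A : V → Prop)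
    (hX : ∀ u v, X u → X v → u = v) (hY : ∀ u v, Y u → Y v → u = v)
    (hXY : ∀ u v, X u → Y v → κ u ≠ κ v)
    (hA : ∀ u v, B.Adj u v → A u → A v ∨ X v ∨ Y v)
    (hAX : ∀ v, A v → ¬ X v) (hAY : ∀ v, A v → ¬ Y v) {a : V} (ha : A a) (v : V) :
    A v ∨ X v ∨ Y v := by
  by_contra hv
  push Not at hv
  obtain ⟨hv1, hv2, hv3⟩ := hv
  by_cases h1 : ∃ p, X p
  · obtain ⟨p, hp⟩ := h1
    by_cases h2 : ∃ q, Y q
    · obtain ⟨q, hq⟩ := h2
      have key := prop_of_preconnected (ho κ hκ p q (hXY p q hp hq)) (fun x => A x.1)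
        (fun u w huw hu => by
          rcases hA u.1 w.1 huw hu with h | h | h
          · exact h
          · exact absurd (Or.inl (hX _ _ h hp)) w.2
          · exact absurd (Or.inr (hY _ _ h hq)) w.2)
        (u := ⟨a, by
          rintro (h | h)
          · exact hAX a ha (h ▸ hp)
          · exact hAY a ha ((show a = q from h) ▸ hq)⟩) ha
        ⟨v, by
          rintro (h | h)
          · exact hv2 (h ▸ hp)
          · exact hv3 ((show v = q from h) ▸ hq)⟩
      exact hv1 key
    · push Not at h2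
      refine hv1 (hB.prop A p (fun u w huw hu hw => ?_) ha (fun h => hAX a ha (h ▸ hp)) v
        (fun h => hv2 (h ▸ hp)))
      rcases hA u w huw hu with h | h | h
      · exact h
      · exact absurd (hX _ _ h hp) hw
      · exact absurd h (h2 w)
  · push Not at h1
    by_cases h2 : ∃ q, Y q
    · obtain ⟨q, hq⟩ := h2
      refine hv1 (hB.prop A q (fun u w huw hu hw => ?_) ha (fun h => hAY a ha (h ▸ hq)) v
        (fun h => hv3 (h ▸ hq)))
      rcases hA u w huw hu with h | h | h
      · exact h
      · exact absurd h (h1 w)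
      · exact absurd (hY _ _ h hq) hw
    · push Not at h2
      refine hv1 (prop_of_preconnected hB.2.1.preconnected A (fun u w huw hu => ?_) ha v)
      rcases hA u w huw hu with h | h | h
      · exact h
      · exact absurd h (h1 w)
      · exact absurd h (h2 w)

/-- LOC. -/
theorem loc : LocStmt := by
  intro V _ B hB _ ho D hb f
  have finj : ∀ u v, f u = f v → u = v := fun u v h => f.injective h
  have fadj : ∀ u v, B.Adj u v → D.F.Adj (f u) (f v) := fun u v h => f.toHom.map_adj h
  by_cases hin : ∃ v x y e z, f v = D.inn x y e z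
  · right
    obtain ⟨v0, x, y, e0, z0, h0⟩ := hin
    have hΓ : D.Γ.Adj x y := by
      obtain ⟨u, hu⟩ := hB.exists_adj v0
      have h1 := fadj _ _ hu
      rw [h0] at h1
      exact (hb.ninn _ _ _ _ _ h1).1
    obtain ⟨κ', hκ', _⟩ := hb.side
    -- the hyperedges which are met
    let M : Set D.E := {e | ∃ v z, f v = D.inn x y e z}
    have hM1 : M.Nonempty := ⟨e0, v0, z0, h0⟩
    have hM2 : M.ncard ≤ Nat.card V := by
      let g : V → D.E := fun v => match f v with
        | .inr (.inr (.inr p)) => p.2.2.1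
        | _ => e0
      have h1 : M ⊆ g '' Set.univ := by
        rintro e ⟨v, z, h⟩
        refine ⟨v, Set.mem_univ _, ?_⟩
        show (match f v with
          | .inr (.inr (.inr p)) => p.2.2.1
          | _ => e0) = e
        rw [h]
      have h2 : M.ncard ≤ (g '' Set.univ).ncard := Set.ncard_le_ncard h1 (Set.toFinite _)
      have h3 : (g '' Set.univ).ncard ≤ (Set.univ : Set V).ncard :=
        Set.ncard_image_le (Set.toFinite _)
      rw [Set.ncard_univ] at h3
      exact h2.trans h3
    obtain ⟨e, heM, he⟩ := D.leafy M hM1 hM2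
    let bad : Fin D.n → Prop := fun i =>
      D.inc e i ∈ ({D.s, D.t true, D.t false} : Set D.Y) ∨
        ∃ e' ∈ M, e' ≠ e ∧ ∃ l, D.inc e' l = D.inc e i
    have hbad : ∀ i j, bad i → bad j → i = j := he
    let A : V → Prop := fun v =>
      (∃ z, f v = D.inn x y e z) ∨ ∃ i, ¬ bad i ∧ f v = D.pt x y (D.inc e i)
    let X : V → Prop := fun v => f v = .inl x
    let Y : V → Prop := fun v => ∃ i, bad i ∧ f v = D.pt x y (D.inc e i)
    have hne : x ≠ y := hΓ.ne
    have nb_pnt : ∀ i, ¬ bad i → D.pt x y (D.inc e i) = D.pnt x y (D.inc e i) := by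
      intro i hi
      apply H60.pt_o
      · intro h
        exact hi (Or.inl (Or.inl h))
      · intro h
        refine hi (Or.inl (Or.inr ?_))
        rw [h]
        cases D.χ x y
        · exact Or.inr rfl
        · exact Or.inl rfl
    have hX : ∀ u v, X u → X v → u = v := fun u v h1 h2 =>
      finj u v ((show f u = .inl x from h1).trans (show f v = .inl x from h2).symm)
    have hY : ∀ u v, Y u → Y v → u = v := by
      rintro u v ⟨i, hi, h1⟩ ⟨j, hj, h2⟩
      have := hbad i j hi hj
      subst this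
      exact finj u v (h1.trans h2.symm)
    have hXY : ∀ u v, X u → Y v → κ' (f u) ≠ κ' (f v) := by
      rintro u v h1 ⟨i, _, h2⟩
      have h1' : f u = .inl x := h1
      rw [h1', h2, ← hb.emr x y e, ← hb.emn]
      exact hκ' _ _ ((hb.ind x y e _ _ hΓ).2 ((D.nbr _).2 ⟨i, rfl⟩))
    have hA : ∀ u v, B.Adj u v → A u → A v ∨ X v ∨ Y v := by
      rintro u v huv (⟨z, hz⟩ | ⟨i, hi, hz⟩)
      · have h1 := fadj _ _ huv
        rw [hz] at h1
        obtain ⟨_, _, _, z', h2, _, h3⟩ := hb.ninn _ _ _ _ _ h1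
        rcases H60.em_cases D x y e z' with ⟨g1, g2⟩ | ⟨j, g1, g2⟩ | ⟨g1, g1', g2⟩
        · exact absurd g1 h2
        · by_cases hj : bad j
          · exact Or.inr (Or.inr ⟨j, hj, h3.trans g2⟩)
          · exact Or.inl (Or.inr ⟨j, hj, h3.trans g2⟩)
        · exact Or.inl (Or.inl ⟨z', h3.trans g2⟩)
      · have h1 := fadj _ _ huv
        rw [hz, nb_pnt i hi] at h1
        rcases hb.npnt _ _ _ _ h1 with h2 | ⟨e', z', l, _, h2, h3⟩
        · exact Or.inr (Or.inl h2)
        · by_cases h4 : e' = e
          · subst h4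
            exact Or.inl (Or.inl ⟨z', h2⟩)
          · exact absurd (Or.inr ⟨e', ⟨v, z', h2⟩, h4, l, h3⟩) hi
    have hAX : ∀ v, A v → ¬ X v := by
      rintro v (⟨z, hz⟩ | ⟨i, hi, hz⟩) hv
      · have hv' : f v = .inl x := hv
        rw [hv'] at hz
        exact absurd hz (by simp)
      · have hv' : f v = .inl x := hv
        rw [hv'] at hz
        exact H60.pt_ne_root D x y _ hne hz.symm
    have hAY : ∀ v, A v → ¬ Y v := by
      rintro v (⟨z, hz⟩ | ⟨i, hi, hz⟩) ⟨j, hj, hv⟩
      · rw [hv] at hz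
        exact H60.pt_ne_inn D _ _ _ _ _ _ _ hz
      · rw [hv] at hz
        have h1 := D.inci e (hb.ptj x y hz)
        rw [h1] at hj
        exact hi hj
    obtain ⟨a, za, ha⟩ := heM
    have key := fun v => cut hB ho (fun v => κ' (f v)) (fun u v huv => hκ' _ _ (fadj _ _ huv))
      X Y A hX hY hXY hA hAX hAY (a := a) (Or.inl ⟨za, ha⟩) v
    refine ⟨x, y, e, hΓ, fun v => ?_⟩
    rcases key v with (⟨z, hz⟩ | ⟨i, _, hz⟩) | hv | ⟨i, _, hz⟩
    · obtain ⟨u, hu⟩ := hB.exists_adj v
      have h1 := fadj _ _ hu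
      rw [hz] at h1
      obtain ⟨_, h2, h3, _⟩ := hb.ninn _ _ _ _ _ h1
      exact ⟨z, hz.trans (hb.emi x y e z h2 h3).symm⟩
    · exact ⟨D.nb i, hz.trans (hb.emn x y e i).symm⟩
    · exact ⟨D.r, (show f v = .inl x from hv).trans (hb.emr x y e).symm⟩
    · exact ⟨D.nb i, hz.trans (hb.emn x y e i).symm⟩
  · left
    push Not at hin
    intro v
    obtain ⟨u, hu⟩ := hB.exists_adj v
    obtain ⟨w, hwu, hw⟩ := hB.exists_adj_ne v u
    have h1 := fadj _ _ hu
    have h2 := fadj _ _ hw
    rcases hfv : f v with x | x | ⟨x, y, p⟩ | ⟨x, y, e, z⟩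
    · exact ⟨x, rfl⟩
    · exfalso
      rw [hfv] at h1 h2
      have h3 : f u = .inl x := by
        rcases hb.nref _ _ h1 with h | ⟨y, e, z, i, _, h, _⟩
        · exact h
        · exact absurd h (hin u x y e z)
      have h4 : f w = .inl x := by
        rcases hb.nref _ _ h2 with h | ⟨y, e, z, i, _, h, _⟩
        · exact h
        · exact absurd h (hin w x y e z)
      exact hwu (finj w u (h4.trans h3.symm))
    · exfalso
      rw [hfv] at h1 h2
      have h3 : f u = .inl x := by
        rcases hb.npnt _ _ _ _ h1 with h | ⟨e, z, i, _, h, _⟩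
        · exact h
        · exact absurd h (hin u x y e z)
      have h4 : f w = .inl x := by
        rcases hb.npnt _ _ _ _ h2 with h | ⟨e, z, i, _, h, _⟩
        · exact h
        · exact absurd h (hin w x y e z)
      exact hwu (finj w u (h4.trans h3.symm))
    · exact absurd hfv (hin v x y e z)

end Pool.Agent.SEP60.H10
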